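import Pool.Agent.H79.RD.Targets

/-! P4: the choice of the parameters. -/

set_option autoImplicit false

namespace Pool.Agent.H16.RD

open Pool.Agent.H79.RD

/-- The main inequality. -/
theorem p4_main (E n w D l g b M m K : ℕ) (hE : 8 ≤ E) (hl : 3 ≤ l) (hK : K = 512 * E ^ 5)
    (hw : K * l ^ 2 ≤ w) (hn0 : 0 < n) (hD : K * D * l ≤ n * w) (hg : g = l + 3) (hb : b = E * g)
    (hM : 1 ≤ M) (hM1 : 2 * E * b * M ≤ n) (hM2 : n < 2 * E * b * (M + 1))
    (hm : m * (g * M) ≤ D + g * M) : 12 * E ^ 2 * b * (b + m) ≤ w := by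
  have hbl : b ≤ 2 * E * l := by
    rw [hb, hg]
    nlinarith
  have hb1 : 1 ≤ b := by
    rw [hb, hg]
    nlinarith
  have hn4 : n ≤ 4 * E * b * M := by
    have : 2 * E * b * (M + 1) ≤ 4 * E * b * M := by
      have h : 2 * E * b * 1 ≤ 2 * E * b * M := Nat.mul_le_mul_left _ hM
      nlinarith
    omega
  have hK0 : 0 < K := by
    rw [hK]
    have : 0 < E := by omega
    positivity
  have h1 : n * (b * m) ≤ 4 * E ^ 2 * b * D + 2 * b * n := by
    calc n * (b * m) ≤ (4 * E * b * M) * (b * m) := Nat.mul_le_mul_right _ hn4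
      _ = 4 * E ^ 2 * b * (m * (g * M)) := by
          conv_lhs => rw [show (4 * E * b * M) * (b * m) = 4 * E * b * M * m * b by ring]
          conv_lhs => arg 2; rw [hb]
          ring
      _ ≤ 4 * E ^ 2 * b * (D + g * M) := Nat.mul_le_mul_left _ hm
      _ = 4 * E ^ 2 * b * D + 2 * b * (2 * E * (E * g) * M) := by ring
      _ = 4 * E ^ 2 * b * D + 2 * b * (2 * E * b * M) := by rw [← hb]
      _ ≤ 4 * E ^ 2 * b * D + 2 * b * n := by
          have := Nat.mul_le_mul_left (2 * b) hM1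
          omega
  have h2 : K * (b * m) ≤ 8 * E ^ 3 * w + 2 * K * b := by
    have h3 : n * (K * (b * m)) ≤ n * (8 * E ^ 3 * w + 2 * K * b) := by
      calc n * (K * (b * m)) = K * (n * (b * m)) := by ring
        _ ≤ K * (4 * E ^ 2 * b * D + 2 * b * n) := Nat.mul_le_mul_left _ h1
        _ = 4 * E ^ 2 * K * D * b + 2 * K * b * n := by ring
        _ ≤ 4 * E ^ 2 * K * D * (2 * E * l) + 2 * K * b * n := by
            have := Nat.mul_le_mul_left (4 * E ^ 2 * K * D) hbl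
            omega
        _ = 8 * E ^ 3 * (K * D * l) + 2 * K * b * n := by ring
        _ ≤ 8 * E ^ 3 * (n * w) + 2 * K * b * n := by
            have := Nat.mul_le_mul_left (8 * E ^ 3) hD
            omega
        _ = n * (8 * E ^ 3 * w + 2 * K * b) := by ring
    exact Nat.le_of_mul_le_mul_left h3 hn0
  have h4 : K * (12 * E ^ 2 * b * (b + m)) ≤ K * w := by
    have hbb : b ^ 2 ≤ 4 * E ^ 2 * l ^ 2 := by
      calc b ^ 2 ≤ (2 * E * l) ^ 2 := Nat.pow_le_pow_left hbl 2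
        _ = 4 * E ^ 2 * l ^ 2 := by ring
    have hb2 : b ≤ b ^ 2 := by nlinarith
    have hE45 : E ^ 4 ≤ E ^ 5 := Nat.pow_le_pow_right (by omega) (by norm_num)
    calc K * (12 * E ^ 2 * b * (b + m)) = 12 * E ^ 2 * K * b ^ 2 + 12 * E ^ 2 * (K * (b * m)) := by
          ring
      _ ≤ 12 * E ^ 2 * K * b ^ 2 + 12 * E ^ 2 * (8 * E ^ 3 * w + 2 * K * b) := by
          have := Nat.mul_le_mul_left (12 * E ^ 2) h2
          omega
      _ = 12 * E ^ 2 * K * b ^ 2 + 96 * E ^ 5 * w + 24 * E ^ 2 * K * b := by ring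
      _ ≤ 12 * E ^ 2 * K * b ^ 2 + 96 * E ^ 5 * w + 24 * E ^ 2 * K * b ^ 2 := by
          have := Nat.mul_le_mul_left (24 * E ^ 2 * K) hb2
          omega
      _ = 36 * E ^ 2 * K * b ^ 2 + 96 * E ^ 5 * w := by ring
      _ ≤ 36 * E ^ 2 * K * (4 * E ^ 2 * l ^ 2) + 96 * E ^ 5 * w := by
          have := Nat.mul_le_mul_left (36 * E ^ 2 * K) hbb
          omega
      _ = 144 * E ^ 4 * (K * l ^ 2) + 96 * E ^ 5 * w := by ring
      _ ≤ 144 * E ^ 4 * w + 96 * E ^ 5 * w := by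
          have := Nat.mul_le_mul_left (144 * E ^ 4) hw
          omega
      _ ≤ 144 * E ^ 5 * w + 96 * E ^ 5 * w := by
          have : 144 * E ^ 4 * w ≤ 144 * E ^ 5 * w :=
            Nat.mul_le_mul_right _ (Nat.mul_le_mul_left _ hE45)
          omega
      _ ≤ K * w := by
          rw [hK]
          have : 144 * E ^ 5 * w + 96 * E ^ 5 * w = 240 * (E ^ 5 * w) := by ring
          rw [this, show 512 * E ^ 5 * w = 512 * (E ^ 5 * w) by ring]
          omega
  exact Nat.le_of_mul_le_mul_left h4 hK0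

/-- The last pair of inequalities. -/
theorem p4_last (E n g M : ℕ) (hE : 8 ≤ E) (hg : 6 ≤ g) (hM : E ≤ M)
    (hM2 : n < 2 * E * (E * g) * (M + 1)) :
    E * n ≤ E * ((2 * E * M - 2 * M) * (E * g - 2 * g)) - E * (2 * E * M + E * g * (2 * M)) + 6 * n ∧
      E * (2 * E * M + E * g * (2 * M)) ≤ E * ((2 * E * M - 2 * M) * (E * g - 2 * g)) := by
  obtain ⟨F, rfl⟩ : ∃ F, E = F + 8 := ⟨E - 8, by omega⟩
  have e1 : 2 * (F + 8) * M - 2 * M = (2 * F + 14) * M := by
    have : 2 * (F + 8) * M = (2 * F + 14) * M + 2 * M := by ring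
    omega
  have e2 : (F + 8) * g - 2 * g = (F + 6) * g := by
    have : (F + 8) * g = (F + 6) * g + 2 * g := by ring
    omega
  rw [e1, e2]
  have hY : (F + 8) * (2 * (F + 8) * M + (F + 8) * g * (2 * M)) ≤
      (F + 8) * ((2 * F + 14) * M * ((F + 6) * g)) := by
    apply Nat.mul_le_mul_left
    have h1 : 2 * (F + 8) * M + (F + 8) * g * (2 * M) = M * (2 * (F + 8) * (g + 1)) := by ring
    have h2 : (2 * F + 14) * M * ((F + 6) * g) = M * ((2 * F + 14) * (F + 6) * g) := by ring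
    rw [h1, h2]
    apply Nat.mul_le_mul_left
    calc 2 * (F + 8) * (g + 1) ≤ 2 * (F + 8) * (2 * g) := Nat.mul_le_mul_left _ (by omega)
      _ = (4 * F + 32) * g := by ring
      _ ≤ (2 * F + 14) * (F + 6) * g := Nat.mul_le_mul_right _ (by nlinarith)
  refine ⟨?_, hY⟩
  have key : (F + 8) * n + (F + 8) * (2 * (F + 8) * M + (F + 8) * g * (2 * M)) ≤
      (F + 8) * ((2 * F + 14) * M * ((F + 6) * g)) + 6 * n := by
    have h3 : (F + 2) * n ≤ (F + 2) * (2 * (F + 8) * ((F + 8) * g) * (M + 1)) :=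
      Nat.mul_le_mul_left _ hM2.le
    have h4 : (F + 2) * (2 * (F + 8) * ((F + 8) * g) * (M + 1)) +
        (F + 8) * (2 * (F + 8) * M + (F + 8) * g * (2 * M)) ≤
        (F + 8) * ((2 * F + 14) * M * ((F + 6) * g)) := by
      have h5 : (F + 2) * (2 * (F + 8) * ((F + 8) * g) * (M + 1)) +
        (F + 8) * (2 * (F + 8) * M + (F + 8) * g * (2 * M)) =
        (F + 8) * ((2 * (F + 2) * (F + 8) + 2 * (F + 8)) * (g * M) + 2 * (F + 2) * (F + 8) * g +
          2 * (F + 8) * M) := by ring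
      rw [h5]
      apply Nat.mul_le_mul_left
      have h6 : 2 * (F + 2) * (F + 8) * g ≤ 2 * (F + 8) * (g * M) := by
        have : 2 * (F + 2) * (F + 8) * g = 2 * (F + 8) * (g * (F + 2)) := by ring
        rw [this]
        apply Nat.mul_le_mul_left
        apply Nat.mul_le_mul_left
        omega
      have h7 : 2 * (F + 8) * M ≤ 2 * (F + 8) * (g * M) := by
        apply Nat.mul_le_mul_left
        nlinarith
      have h8 : (2 * F + 14) * M * ((F + 6) * g) = (2 * F + 14) * (F + 6) * (g * M) := by ring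
      rw [h8]
      have h9 : (2 * (F + 2) * (F + 8) + 2 * (F + 8) + 2 * (F + 8) + 2 * (F + 8)) * (g * M) ≤
          (2 * F + 14) * (F + 6) * (g * M) := by
        apply Nat.mul_le_mul_right
        nlinarith
      nlinarith
    nlinarith
  omega

theorem pf_P4 : T_P4 := by
  intro E hE
  have hE0 : 0 < E := by omega
  have hE1 : E ≤ E ^ 5 := by
    calc E = E ^ 1 := (pow_one E).symm
      _ ≤ E ^ 5 := Nat.pow_le_pow_right hE0 (by norm_num)
  refine ⟨512 * E ^ 5, 8, by omega, by omega, ?_⟩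
  intro n hn w D hw hwn hD
  have hl3 : 3 ≤ Nat.log 2 n := Nat.le_log_of_pow_le (by norm_num) (by omega)
  have h2l : n < 2 ^ (Nat.log 2 n + 1) := Nat.lt_pow_succ_log_self (by norm_num) n
  generalize Nat.log 2 n = l at *
  obtain ⟨K, hK⟩ : ∃ K, K = 512 * E ^ 5 := ⟨_, rfl⟩
  rw [← hK] at hw hwn hD
  obtain ⟨g, hg⟩ : ∃ g, g = l + 3 := ⟨_, rfl⟩
  obtain ⟨b, hb⟩ : ∃ b, b = E * g := ⟨_, rfl⟩
  have hg6 : 6 ≤ g := by omega
  have hb1 : 1 ≤ b := by rw [hb]; nlinarith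
  have hbl : b ≤ 2 * E * l := by
    rw [hb, hg]
    nlinarith
  have hEb : 0 < 2 * E * b := by positivity
  obtain ⟨M, hMdef⟩ : ∃ M, M = n / (2 * E * b) := ⟨_, rfl⟩
  have hM1 : 2 * E * b * M ≤ n := by rw [hMdef]; exact Nat.mul_div_le _ _
  have hM2 : n < 2 * E * b * (M + 1) := by rw [hMdef]; exact Nat.lt_mul_div_succ _ hEb
  have hME : E ≤ M := by
    rw [hMdef, Nat.le_div_iff_mul_le hEb]
    calc E * (2 * E * b) ≤ E * (2 * E * (2 * E * l)) := by gcongr
      _ = 4 * (E ^ 3 * l) := by ring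
      _ ≤ 4 * (E ^ 5 * l ^ 2) := by
          have e1 : E ^ 3 ≤ E ^ 5 := Nat.pow_le_pow_right hE0 (by norm_num)
          have e2 : l ≤ l ^ 2 := by nlinarith
          exact Nat.mul_le_mul_left _ (Nat.mul_le_mul e1 e2)
      _ ≤ K * l ^ 2 := by rw [hK]; nlinarith [Nat.zero_le (E ^ 5 * l ^ 2)]
      _ ≤ w := hw
      _ ≤ K * w := by
          have : 0 < K := by rw [hK]; positivity
          nlinarith
      _ ≤ n := hwn
  have hM0 : 0 < M := by omega
  have hgM : 0 < g * M := by positivity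
  obtain ⟨m, hmdef⟩ : ∃ m, m = D / (g * M) + 1 := ⟨_, rfl⟩
  have hm1 : m * (g * M) ≤ D + g * M := by
    have := Nat.div_mul_le_self D (g * M)
    rw [hmdef]
    nlinarith
  have hm2 : D < m * (g * M) := by
    have := Nat.lt_mul_div_succ D hgM
    rw [hmdef]
    linarith [Nat.mul_comm (g * M) (D / (g * M) + 1)]
  have hm0 : 1 ≤ m := by rw [hmdef]; exact Nat.le_add_left _ _
  have hmain := p4_main E n w D l g b M m K hE hl3 hK hw (by omega) hD hg hb (by omega) hM1 hM2 hm1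
  obtain ⟨s', hs'⟩ : ∃ s', s' = E * (b + m + 1) := ⟨_, rfl⟩
  obtain ⟨s, hs⟩ : ∃ s, s = s' + m + b + 3 * g + 3 := ⟨_, rfl⟩
  have hbg : 8 * g ≤ b := by rw [hb]; nlinarith
  have hs3 : s ≤ 3 * E * (b + m) := by
    rw [hs, hs']
    nlinarith
  have hqs : 4 * E * s ≤ w / b := by
    rw [Nat.le_div_iff_mul_le (by omega)]
    calc 4 * E * s * b ≤ 4 * E * (3 * E * (b + m)) * b := by gcongr
      _ = 12 * E ^ 2 * b * (b + m) := by ring
      _ ≤ w := hmain
  have hNb : b * (2 * E * M) ≤ n := by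
    calc b * (2 * E * M) = 2 * E * b * M := by ring
      _ ≤ n := hM1
  have hN1 : 1 ≤ 2 * E * M := Nat.succ_le_of_lt (by positivity)
  have hNn : 2 * E * M ≤ n := le_trans (by nlinarith) hNb
  have hpow : 2 ^ (l + 1) * 4 = 2 ^ g := by rw [hg]; ring
  have hNg : b * (2 * E * M) + 2 ≤ 2 ^ g := by
    have : 1 ≤ 2 ^ (l + 1) := Nat.one_le_two_pow
    omega
  have hs0 : 1 ≤ s := by omega
  have hmm : m ≤ 2 ^ m := Nat.lt_two_pow_self.le
  have hgg : 2 ^ g = 2 * 2 ^ (g - 1) := by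
    obtain ⟨g', rfl⟩ : ∃ g', g = g' + 1 := ⟨g - 1, by omega⟩
    simp [pow_succ]; ring
  refine ⟨2 * E * M, b, g, w / b, 2 * E * M - M, 2 * E * M - 2 * M, 2 * M, 2 ^ (g - 1), m, 4 * E, s, s',
    ⟨hN1, ?_, by omega, by omega, ?_, by omega, hNb, Nat.div_mul_le_self _ _, ?_, ?_, ?_⟩,
    ⟨by omega, ?_, hqs, ?_, ?_, ?_, ?_⟩, ?_⟩
  · calc 1 ≤ 4 * E * s := by nlinarith
      _ ≤ w / b := hqs
  · have : 16 * M ≤ 2 * E * M := by nlinarith
    omega
  · calc 2 * E * M ≤ n := hNn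
      _ ≤ 2 ^ (l + 1) := h2l.le
      _ ≤ 2 ^ b := Nat.pow_le_pow_right (by norm_num) (by omega)
  · have : 2 * E * M - M - (2 * E * M - 2 * M) = M := by
      have : 16 * M ≤ 2 * E * M := by nlinarith
      omega
    rw [this]
    exact hm2
  · have h1 : 2 ^ (g - 1) = 2 ^ (l + 1) * 2 := by
      have : g - 1 = l + 1 + 1 := by omega
      rw [this, pow_succ]
    have h2 : 2 * M ≤ 2 * E * M := by nlinarith
    omega
  · have h16 : 16 * M ≤ 2 * E * M := by nlinarith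
    obtain ⟨X, hX⟩ : ∃ X, X = 2 * E * M := ⟨_, rfl⟩
    rw [← hX] at h16 ⊢
    obtain ⟨q, hq⟩ : ∃ q, q = 4 * E := ⟨_, rfl⟩
    rw [← hq]
    have hqM : q * M = 2 * X := by rw [hq, hX]; ring
    have e3 : q * (X - M + 1) + q * M = q * (X + 1) := by
      rw [← mul_add]; congr 1; omega
    have e4 : (q - 1) * X + X = q * X := by
      obtain ⟨q', rfl⟩ : ∃ q', q = q' + 1 := ⟨q - 1, by omega⟩
      simp; ring
    have e5 : q * (X + 1) = q * X + q := by ring
    have e6 : q ≤ X := by rw [hq, hX]; nlinarith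
    omega
  · calc 8 * 2 ^ g * (b * (2 * E * M) + 2) ≤ 8 * 2 ^ g * 2 ^ g := by gcongr
      _ = 2 ^ (2 * g + 3) := by ring
      _ ≤ 2 ^ s := Nat.pow_le_pow_right (by norm_num) (by omega)
  · calc 2 * (b * (2 * E * M) + 2) * (2 ^ s' * (m * (2 * E * M) * 2 ^ b))
        ≤ 2 * 2 ^ g * (2 ^ s' * (2 ^ m * 2 ^ g * 2 ^ b)) := by
          gcongr
          omega
      _ = 2 ^ (s' + m + b + 2 * g + 1) := by ring
      _ ≤ 2 ^ s := Nat.pow_le_pow_right (by norm_num) (by omega)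
  · rw [hs']
    have h1 : E * (b + m + 1) * (2 * M) = b * (2 * E * M) + 2 * E * M * m + 2 * E * M := by ring
    rw [h1]
    have h2 : 2 ≤ 2 * E * M := by nlinarith
    omega
  · have h4 : 4 ^ 2 ^ (g - 1) = 2 ^ 2 ^ g := by
      rw [hgg, show (4 : ℕ) = 2 ^ 2 by norm_num, ← pow_mul]
    rw [h4]
    obtain ⟨X, hX⟩ : ∃ X, X = 2 * E * M := ⟨_, rfl⟩
    rw [← hX] at hN1 hNn hNb ⊢
    calc 4 * (2 ^ (b * X) * 2 ^ X * X * 2 ^ b)
        ≤ 2 ^ 2 * (2 ^ (b * X) * 2 ^ X * 2 ^ X * 2 ^ b) := by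
          gcongr
          · norm_num
          · exact Nat.lt_two_pow_self.le
      _ = 2 ^ (2 + b * X + X + X + b) := by ring
      _ ≤ 2 ^ 2 ^ g := by
          apply Nat.pow_le_pow_right (by norm_num)
          have h5 : X + b ≤ b * X + 1 := by
            obtain ⟨x, rfl⟩ : ∃ x, X = x + 1 := ⟨X - 1, by omega⟩
            obtain ⟨y, rfl⟩ : ∃ y, b = y + 1 := ⟨b - 1, by omega⟩
            nlinarith [Nat.zero_le (x * y)]
          omega
  · have := p4_last E n g M hE hg6 hME (by rw [← hb]; exact hM2)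
    rw [← hb] at this
    exact this

end Pool.Agent.H16.RD
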